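import Pool.Agent.Helper91.GU.StD

/-!
# Project GU (MP_b1e6de_al): module D9 (assembly of block D)
-/

set_option autoImplicit false

namespace Pool.Agent.Helper43.GU

universe u

open Pool.Agent.Helper91.GU Polynomial IsLocalRing

section EEq

variable {n : Type} [Fintype n] [DecidableEq n] {A : Type u} [CommRing A]

lemma eeq_refl (v : n → A) : EEq v v := ⟨1, Submonoid.one_mem _, Matrix.vecMul_one v⟩

lemma eeq_trans {u v w : n → A} (h : EEq u v) (h' : EEq v w) : EEq u w := by
  obtain ⟨e, he, rfl⟩ := h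
  obtain ⟨f, hf, rfl⟩ := h'
  exact ⟨e * f, Submonoid.mul_mem _ he hf, by rw [Matrix.vecMul_vecMul]⟩

lemma eeq_op (v : n → A) (i j : n) (hij : i ≠ j) (c : A) :
    EEq v (Function.update v j (v j + c * v i)) := by
  refine ⟨Matrix.transvection i j c, Submonoid.subset_closure ⟨i, j, c, hij, rfl⟩, ?_⟩
  ext l
  rw [Matrix.transvection, Matrix.vecMul_add, Matrix.vecMul_one, Pi.add_apply]
  have : Matrix.vecMul v (Matrix.single i j c) l = if l = j then v i * c else 0 := by
    simp only [Matrix.vecMul, dotProduct, Matrix.single_apply]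
    by_cases h : l = j
    · subst h
      simp
    · rw [if_neg h]
      apply Finset.sum_eq_zero
      intro x _
      rw [if_neg (fun hh => h hh.2.symm), mul_zero]
  rw [this]
  by_cases h : l = j
  · subst h
    simp [mul_comm]
  · simp [h]

lemma eeq_clear (v : n → A) (i : n) (q : n → A) (S : Finset n) (hS : i ∉ S) :
    EEq v (fun j => if j ∈ S then v j + q j * v i else v j) := by
  induction S using Finset.induction_on with
  | empty =>
    simp only [Finset.notMem_empty, if_false]
    exact eeq_refl v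
  | insert a T ha ih =>
    have hi : i ∉ T := fun h => hS (Finset.mem_insert_of_mem h)
    have hia : i ≠ a := fun h => hS (h ▸ Finset.mem_insert_self a T)
    refine eeq_trans (ih hi) ?_
    have h1 := eeq_op (fun j => if j ∈ T then v j + q j * v i else v j) i a hia (q a)
    refine Eq.mp ?_ h1
    congr 1
    ext j
    by_cases hja : j = a
    · subst hja
      simp [ha, hi]
    · simp [hja]

/-- clear everything with an entry equal to one -/
lemma eeq_one (v : n → A) (i : n) (hi : v i = 1) : EEq v (Pi.single i 1) := by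
  have h := eeq_clear v i (fun j => - v j) (Finset.univ.erase i) (Finset.notMem_erase i _)
  refine Eq.mp ?_ h
  congr 1
  ext j
  by_cases hj : j = i
  · subst hj
    simp [hi]
  · simp [hj, hi]

lemma eeq_unit_ne (v : n → A) (i i₀ : n) (hne : i ≠ i₀) (hu : IsUnit (v i)) :
    EEq v (Pi.single i₀ 1) := by
  obtain ⟨y, hy⟩ := hu.exists_right_inv
  refine eeq_trans (eeq_op v i i₀ hne ((1 - v i₀) * y)) (eeq_one _ i₀ ?_)
  rw [Function.update_self]
  linear_combination (1 - v i₀) * hy

lemma eeq_unit (v : n → A) (i i₀ j₀ : n) (h0 : i₀ ≠ j₀) (hu : IsUnit (v i)) :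
    EEq v (Pi.single i₀ 1) := by
  by_cases hne : i = i₀
  · subst hne
    obtain ⟨y, hy⟩ := hu.exists_right_inv
    refine eeq_trans (eeq_op v i j₀ h0 ((1 - v j₀) * y)) (eeq_unit_ne _ j₀ i h0.symm ?_)
    rw [Function.update_self]
    have : v j₀ + (1 - v j₀) * y * v i = 1 := by linear_combination (1 - v j₀) * hy
    rw [this]
    exact isUnit_one
  · exact eeq_unit_ne v i i₀ hne hu

end EEq

/-- Euclid's algorithm for unimodular rows of polynomials over a field -/
lemma euclid {n : Type} [Fintype n] [DecidableEq n] {K : Type u} [Field K] (hB7 : StB7.{u})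
    (i₀ j₀ : n) (h0 : i₀ ≠ j₀) : ∀ (N : ℕ) (w : n → K[X]), Um w → ∀ i, w i ≠ 0 →
    (w i).natDegree = N → EEq w (Pi.single i₀ 1) := by
  intro N
  induction N using Nat.strong_induction_on with
  | _ N ih =>
    intro w hw i hi hN
    have h1 := eeq_clear w i (fun j => - (w j / w i)) (Finset.univ.erase i)
      (Finset.notMem_erase i _)
    set w' : n → K[X] := fun j => if j ∈ Finset.univ.erase i then
      w j + (fun j => - (w j / w i)) j * w i else w j with hw'
    have hwi : w' i = w i := by simp [hw']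
    have hwj : ∀ j, j ≠ i → w' j = w j % w i := by
      intro j hj
      have : w' j = w j + - (w j / w i) * w i := by simp [hw', hj]
      rw [this, EuclideanDomain.mod_eq_sub_mul_div]
      ring
    have hUm : Um w' := by
      obtain ⟨_, _, _, hE, hU, _⟩ := (hB7 K[X] K[X] (RingHom.id _)).1 n
      exact hU w w' (hE w w' h1) hw
    refine eeq_trans h1 ?_
    by_cases hex : ∃ j, j ≠ i ∧ w' j ≠ 0
    · obtain ⟨j, hj, hj0⟩ := hex
      have hlt : (w' j).natDegree < N := by
        rw [← hN]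
        apply natDegree_lt_natDegree hj0
        rw [hwj j hj]
        exact degree_mod_lt _ hi
      exact ih _ hlt w' hUm j hj0 rfl
    · push Not at hex
      apply eeq_unit w' i i₀ j₀ h0
      obtain ⟨y, hy⟩ := hUm
      rw [dotProduct, Finset.sum_eq_single i (fun j _ hj => by rw [hex j hj, zero_mul])
        (fun h => absurd (Finset.mem_univ i) h)] at hy
      exact IsUnit.of_mul_eq_one _ hy

theorem hD9 (hB0 : StB0.{u}) (hB7 : StB7.{u}) (hD5 : StD5.{u}) (hD7 : StD7.{u})
    (hD8 : StD8.{u}) : StD9.{u} := by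
  intro L _ _ _ s hs hdim hm v d hUm
  -- step 1
  let K := ResidueField L
  let φ : L[X] →+* K[X] := mapRingHom (residue L)
  have hφs : Function.Surjective φ := Polynomial.map_surjective _ residue_surjective
  have hker : ∀ p : L[X], φ p = 0 → p ∈ (maximalIdeal L).map C := by
    intro p hp
    rw [Ideal.mem_map_C_iff]
    intro k
    have h1 : (φ p).coeff k = 0 := by rw [hp, coeff_zero]
    have h2 : residue L (p.coeff k) = 0 := by
      rw [← h1]
      simp [φ]
    exact (residue_eq_zero_iff _).1 h2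
  obtain ⟨hr1, hr2, hr3, hr4, hr5, hr6, hr7⟩ := (hB7 L[X] K[X] φ).1 (Unit ⊕ Fin (s + 1))
  have hUw : Um (mp φ (row v d)) := hr7 _ hUm
  have hnz : ∃ i, mp φ (row v d) i ≠ 0 := by
    by_contra hcon
    push Not at hcon
    obtain ⟨y, hy⟩ := hUw
    rw [dotProduct, Finset.sum_eq_zero (fun j _ => by rw [hcon j, zero_mul])] at hy
    exact zero_ne_one hy
  obtain ⟨i, hi⟩ := hnz
  obtain ⟨e, he, hee⟩ := euclid hB7 (K := K) (Sum.inr (Fin.last s) : Unit ⊕ Fin (s + 1))
    (Sum.inl ()) (by simp) _ (mp φ (row v d)) hUw i hi rfl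
  obtain ⟨M, hM, hMe⟩ := (hB0 L[X] K[X] φ (Unit ⊕ Fin (s + 1))).2.2.2.2.2.2 hφs e he
  set w : Unit ⊕ Fin (s + 1) → L[X] := Matrix.vecMul (row v d) M with hw
  have hw1 : REq (row v d) w := hr4 _ _ ⟨M, hM, rfl⟩
  have hφw : ∀ k, φ (w k) = (Pi.single (Sum.inr (Fin.last s)) 1 : Unit ⊕ Fin (s + 1) → K[X]) k := by
    intro k
    rw [← hee, hw, RingHom.map_vecMul, hMe]
    rfl
  set v₀ : L[X] := w (Sum.inl ()) with hv₀
  set c : Fin (s + 1) → L[X] := fun j => w (Sum.inr j) with hc
  have hwr : w = row v₀ c := by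
    ext k
    rcases k with ⟨⟩ | k
    · rfl
    · rfl
  rw [hwr] at hw1
  have hv0m : v₀ ∈ (maximalIdeal L).map C := by
    apply hker
    rw [hv₀, hφw]
    simp
  have hcm : ∀ j : Fin s, c j.castSucc ∈ (maximalIdeal L).map C := by
    intro j
    apply hker
    show φ (w (Sum.inr j.castSucc)) = 0
    rw [hφw, Pi.single_eq_of_ne]
    intro h
    exact (Fin.castSucc_lt_last j).ne (Sum.inr_injective h)
  have hcl : c (Fin.last s) - 1 ∈ (maximalIdeal L).map C := by
    apply hker
    show φ (w (Sum.inr (Fin.last s)) - 1) = 0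
    rw [map_sub, hφw, Pi.single_eq_same, map_one, sub_self]
  have hUm1 : Um (row v₀ c) := hr5 _ _ hw1 hUm
  -- step 2
  obtain ⟨v₁, c₁, hR1, hv1m, hc1l, hdeg, hht⟩ := hD5 L s hm v₀ c hUm1 hv0m hcm hcl
  have hUm2 : Um (row v₁ c₁) := hr5 _ _ hR1 hUm1
  -- step 3
  set S : Set L := Set.range (fun j : Fin s => (c₁ j.castSucc).leadingCoeff) with hS
  obtain ⟨α, β, hα, hβ, hb, hcc, hd⟩ := hD7 L s hs hdim v₁ c₁ hUm2 hv1m (Ideal.span S) (by
    intro p hp hle
    apply hht p hp
    intro j
    exact hle (Ideal.subset_span ⟨j, rfl⟩))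
  set c₂ : Fin (s + 1) → L[X] := fun j => c₁ j + (C (α j) + C (β j) * X) * v₁ with hc₂
  have hR2 : REq (row v₁ c₁) (row v₁ c₂) := by
    apply ((hB7 L[X] K[X] φ).2 (s + 1) v₁ v₁ c₁ c₂).2.1
    intro j
    rw [Ideal.mem_span_singleton]
    refine ⟨C (α j) + C (β j) * X, ?_⟩
    simp only [hc₂]
    ring
  have hmem : ∀ j, c₂ j ∈ idl c₂ := fun j => Ideal.subset_span ⟨j, rfl⟩
  refine ⟨v₁, c₂, hr3 _ _ _ hw1 (hr3 _ _ _ hR1 hR2), ?_, hd⟩
  -- step 4
  apply hD8 L (idl c₂)
  · refine ⟨c₂ (Fin.last s), hmem _, ?_⟩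
    have h1 : (c₁ (Fin.last s) - 1).coeff 0 ∈ maximalIdeal L :=
      Ideal.mem_map_C_iff.1 hc1l 0
    have h2 : ((C (α (Fin.last s)) + C (β (Fin.last s)) * X) * v₁).coeff 0 ∈ maximalIdeal L :=
      Ideal.mem_map_C_iff.1 (Ideal.mul_mem_left _ _ hv1m) 0
    have h3 : (c₂ (Fin.last s)).coeff 0 = 1 + ((c₁ (Fin.last s) - 1).coeff 0
        + ((C (α (Fin.last s)) + C (β (Fin.last s)) * X) * v₁).coeff 0) := by
      simp only [hc₂, coeff_add, coeff_sub, coeff_one_zero]
      ring
    rw [h3]
    have h4 := Ideal.add_mem _ h1 h2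
    by_contra hcon
    have h5 : (1 : L) + ((c₁ (Fin.last s) - 1).coeff 0
        + ((C (α (Fin.last s)) + C (β (Fin.last s)) * X) * v₁).coeff 0) ∈ maximalIdeal L :=
      (mem_maximalIdeal _).2 hcon
    have h6 := (Ideal.add_mem_iff_left _ h4).1 h5
    exact (Ideal.ne_top_iff_one _).1 (maximalIdeal.isMaximal L).ne_top h6
  · exact hb
  · refine ⟨S, ?_, hcc⟩
    rintro a ⟨j, rfl⟩
    have hlow : ((C (α j.castSucc) + C (β j.castSucc) * X) * v₁).natDegree
        < (c₁ j.castSucc).natDegree := by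
      have h1 : ((C (α j.castSucc) + C (β j.castSucc) * X) * v₁).natDegree
          ≤ 1 + v₁.natDegree := by
        refine natDegree_mul_le.trans ?_
        gcongr
        refine (natDegree_add_le _ _).trans ?_
        apply max_le
        · rw [natDegree_C]; exact Nat.zero_le _
        · exact (natDegree_C_mul_le _ _).trans natDegree_X_le
      have h2 := hdeg j
      omega
    refine ⟨c₂ j.castSucc, hmem _, ?_, ?_⟩
    · have h3 : (c₂ j.castSucc).natDegree = (c₁ j.castSucc).natDegree :=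
        natDegree_add_eq_left_of_natDegree_lt hlow
      rw [h3]
      have h2 := hdeg j
      omega
    · have hdlt : ((C (α j.castSucc) + C (β j.castSucc) * X) * v₁).degree
          < (c₁ j.castSucc).degree := degree_lt_degree hlow
      exact leadingCoeff_add_of_degree_lt' hdlt

end Pool.Agent.Helper43.GU
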